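import Pool.Agent.Helper74.OKA.Defs

/-!
# MP_7bedea_an, piece A0e: holomorphic dependence of integrals on parameters
-/

set_option autoImplicit false

open Set Metric Topology MeasureTheory
open scoped Manifold ContDiff

namespace Pool.Agent.Helper74.OKA

universe u

section A

variable {G G' F : Type} [NormedAddCommGroup G] [NormedSpace ℂ G] [FiniteDimensional ℂ G]
  [NormedAddCommGroup G'] [NormedSpace ℂ G'] [FiniteDimensional ℂ G']
  [NormedAddCommGroup F] [NormedSpace ℂ F] [FiniteDimensional ℂ F]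

namespace A02

omit [FiniteDimensional ℂ G] [FiniteDimensional ℂ F] in
/-- Cauchy estimate in direction `v` -/
theorem norm_fderiv_apply_le {x : G} {r M : ℝ} (hr : 0 < r) {Ω : Set G} (hΩ : IsOpen Ω)
    {f : G → F} (hf : DifferentiableOn ℂ f Ω) (hsub : closedBall x r ⊆ Ω)
    (hM : ∀ y ∈ closedBall x r, ‖f y‖ ≤ M) (v : G) : ‖fderiv ℂ f x v‖ ≤ M / r * ‖v‖ := by
  by_cases hv : v = 0
  · simp [hv]
  have hv' : 0 < ‖v‖ := norm_pos_iff.mpr hv
  have hR : 0 < r / ‖v‖ := div_pos hr hv'
  have hmem : ∀ t ∈ closedBall (0 : ℂ) (r / ‖v‖), x + t • v ∈ closedBall x r := by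
    intro t ht
    rw [mem_closedBall, dist_eq_norm] at *
    rw [sub_zero] at ht
    rw [add_sub_cancel_left, norm_smul]
    calc ‖t‖ * ‖v‖ ≤ r / ‖v‖ * ‖v‖ := by gcongr
      _ = r := by field_simp
  have hdg : ∀ t ∈ closedBall (0 : ℂ) (r / ‖v‖),
      HasDerivAt (fun t : ℂ => f (x + t • v)) (fderiv ℂ f (x + t • v) v) t := by
    intro t ht
    have h1 : HasFDerivAt f (fderiv ℂ f (x + t • v)) (x + t • v) :=
      (hf.differentiableAt (hΩ.mem_nhds (hsub (hmem t ht)))).hasFDerivAt
    have h2 : HasDerivAt (fun t : ℂ => x + t • v) v t := by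
      have := ((hasDerivAt_id t).smul_const v).const_add x
      simpa using this
    exact h1.comp_hasDerivAt t h2
  have hd : DiffContOnCl ℂ (fun t : ℂ => f (x + t • v)) (ball 0 (r / ‖v‖)) := by
    apply DifferentiableOn.diffContOnCl
    intro t ht
    have ht' : t ∈ closedBall (0 : ℂ) (r / ‖v‖) := closure_ball_subset_closedBall ht
    exact (hdg t ht').differentiableAt.differentiableWithinAt
  have h3 := Complex.norm_deriv_le_of_forall_mem_sphere_norm_le hR hd
    (C := M) (fun t ht => hM _ (hmem t (sphere_subset_closedBall ht)))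
  have h4 := (hdg 0 (mem_closedBall_self hR.le)).deriv
  rw [h4] at h3
  simp only [zero_smul, add_zero] at h3
  calc ‖fderiv ℂ f x v‖ ≤ M / (r / ‖v‖) := h3
    _ = M / r * ‖v‖ := by field_simp

omit [FiniteDimensional ℂ F] in
/-- measurability of linear-map-valued functions from the measurability of the values -/
theorem aestronglyMeasurable_clm {T : Type*} [MeasurableSpace T] {μ : Measure T}
    (L : T → G →L[ℂ] F) (h : ∀ v, AEStronglyMeasurable (fun τ => L τ v) μ) :
    AEStronglyMeasurable L μ := by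
  classical
  let b := Module.finBasis ℂ G
  have key : L = fun τ => ∑ i, (ContinuousLinearMap.smulRightL ℂ G F
      (LinearMap.toContinuousLinearMap (b.coord i))) (L τ (b i)) := by
    funext τ
    ext v
    have h1 : v = ∑ i, b.coord i v • b i := by
      simp [b.sum_repr v]
    rw [sum_apply]
    conv_lhs => rw [h1, map_sum]
    refine Finset.sum_congr rfl fun i _ => ?_
    simp
  rw [key]
  refine Finset.aestronglyMeasurable_fun_sum _ fun i _ => ?_
  exact (ContinuousLinearMap.continuous _).comp_aestronglyMeasurable (h (b i))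

end A02

/-- A0e: holomorphic dependence of integrals on parameters -/
theorem differentiableOn_integral {T : Type*} [TopologicalSpace T] [MeasurableSpace T]
    [OpensMeasurableSpace T] [SecondCountableTopology T] (μ : Measure T) [IsFiniteMeasure μ]
    (T₀ : Set T)
    (hT₀ : MeasurableSet T₀) (hμ : μ T₀ᶜ = 0) {Ω : Set G} (hΩ : IsOpen Ω) (f : T → G → F)
    (hcont : ContinuousOn (fun x : T × G => f x.1 x.2) (T₀ ×ˢ Ω))
    (hhol : ∀ τ ∈ T₀, DifferentiableOn ℂ (f τ) Ω)
    (hM : ∀ q ∈ Ω, ∃ M : ℝ, ∃ V ∈ 𝓝 q, ∀ x ∈ V, ∀ τ ∈ T₀, ‖f τ x‖ ≤ M) :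
    DifferentiableOn ℂ (fun q => ∫ τ, f τ q ∂μ) Ω := by
  classical
  intro q₀ hq₀
  obtain ⟨M, V, hV, hMV⟩ := hM q₀ hq₀
  obtain ⟨ρ, hρ, hρV⟩ := Metric.mem_nhds_iff.mp (Filter.inter_mem hV (hΩ.mem_nhds hq₀))
  have hr : 0 < ρ / 2 := by positivity
  have hae : ∀ᵐ τ ∂μ, τ ∈ T₀ := by
    rw [ae_iff]
    exact hμ
  have hrestr : μ.restrict T₀ = μ := Measure.restrict_eq_self_of_ae_mem hae
  have hcb : ∀ x ∈ ball q₀ (ρ / 2), closedBall x (ρ / 4) ⊆ ball q₀ ρ := by
    intro x hx y hy
    rw [mem_ball] at *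
    rw [mem_closedBall] at hy
    calc dist y q₀ ≤ dist y x + dist x q₀ := dist_triangle _ _ _
      _ < ρ / 4 + ρ / 2 := by linarith
      _ ≤ ρ := by linarith
  have hmeas : ∀ x ∈ ball q₀ ρ, AEStronglyMeasurable (fun τ => f τ x) μ := by
    intro x hx
    rw [← hrestr]
    have : ContinuousOn (fun τ => f τ x) T₀ := by
      have h1 : ContinuousOn (fun τ : T => (τ, x)) T₀ := by fun_prop
      exact hcont.comp h1 (fun τ hτ => ⟨hτ, (hρV hx).2⟩)
    exact this.aestronglyMeasurable hT₀
  have hder : ∀ τ ∈ T₀, ∀ x ∈ ball q₀ ρ, HasFDerivAt (f τ) (fderiv ℂ (f τ) x) x := by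
    intro τ hτ x hx
    exact ((hhol τ hτ).differentiableAt (hΩ.mem_nhds (hρV hx).2)).hasFDerivAt
  have hself : q₀ ∈ ball q₀ ρ := mem_ball_self hρ
  have hF' : AEStronglyMeasurable (fun τ => fderiv ℂ (f τ) q₀) μ := by
    apply A02.aestronglyMeasurable_clm
    intro v
    -- difference quotients
    let c : ℕ → ℝ := fun n => ((n : ℝ) + 1)⁻¹
    have hc0 : Filter.Tendsto c Filter.atTop (𝓝 0) := by
      have := tendsto_one_div_add_atTop_nhds_zero_nat (𝕜 := ℝ)
      simpa [c, one_div] using this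
    have hc1 : ∀ n, (c n) ≠ 0 := fun n => by positivity
    have hnear : ∀ᶠ n in Filter.atTop, q₀ + (c n : ℂ) • v ∈ ball q₀ ρ := by
      have h1 : Filter.Tendsto (fun n => q₀ + (c n : ℂ) • v) Filter.atTop (𝓝 (q₀ + (0 : ℂ) • v)) := by
        apply Filter.Tendsto.const_add
        apply Filter.Tendsto.smul_const
        exact (Complex.continuous_ofReal.tendsto' 0 0 (by simp)).comp hc0
      rw [zero_smul, add_zero] at h1
      exact h1.eventually (isOpen_ball.mem_nhds hself)
    obtain ⟨N, hN⟩ := Filter.eventually_atTop.mp hnear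
    refine aestronglyMeasurable_of_tendsto_ae Filter.atTop
      (f := fun n τ => ((c (n + N) : ℂ)⁻¹) • (f τ (q₀ + (c (n + N) : ℂ) • v) - f τ q₀)) ?_ ?_
    · intro n
      exact ((hmeas _ (hN _ (by omega))).sub (hmeas _ hself)).const_smul _
    · filter_upwards [hae] with τ hτ
      have h1 : HasDerivAt (fun t : ℂ => f τ (q₀ + t • v)) (fderiv ℂ (f τ) q₀ v) 0 := by
        have h2 : HasDerivAt (fun t : ℂ => q₀ + t • v) v 0 := by
          have := ((hasDerivAt_id (0 : ℂ)).smul_const v).const_add q₀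
          simpa using this
        have h3 : HasFDerivAt (f τ) (fderiv ℂ (f τ) q₀) (q₀ + (0 : ℂ) • v) := by
          simpa using hder τ hτ q₀ hself
        exact h3.comp_hasDerivAt 0 h2
      have h4 := h1.tendsto_slope_zero
      have h5 : Filter.Tendsto (fun n => (c (n + N) : ℂ)) Filter.atTop (𝓝[≠] 0) := by
        rw [tendsto_nhdsWithin_iff]
        refine ⟨?_, Filter.Eventually.of_forall fun n => ?_⟩
        · exact (Complex.continuous_ofReal.tendsto' 0 0 (by simp)).comp
            (hc0.comp (Filter.tendsto_add_atTop_nat N))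
        · simpa using hc1 (n + N)
      have h6 := h4.comp h5
      simpa [Function.comp_def] using h6
  have hmain := hasFDerivAt_integral_of_dominated_of_fderiv_le (μ := μ) (𝕜 := ℂ)
    (F := fun q τ => f τ q) (F' := fun q τ => fderiv ℂ (f τ) q) (x₀ := q₀)
    (bound := fun _ => M / (ρ / 4)) (s := ball q₀ (ρ / 2)) (ball_mem_nhds q₀ hr) ?_ ?_ hF' ?_ ?_ ?_
  · exact hmain.differentiableAt.differentiableWithinAt
  · filter_upwards [ball_mem_nhds q₀ hρ] with x hx
    exact hmeas x hx
  · refine Integrable.of_bound (hmeas q₀ hself) M ?_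
    filter_upwards [hae] with τ hτ
    exact hMV q₀ (hρV hself).1 τ hτ
  · filter_upwards [hae] with τ hτ x hx
    have hM0 : 0 ≤ M := (norm_nonneg _).trans (hMV q₀ (hρV hself).1 τ hτ)
    refine ContinuousLinearMap.opNorm_le_bound _ (by positivity) fun v => ?_
    exact A02.norm_fderiv_apply_le (by positivity) hΩ (hhol τ hτ)
      (fun y hy => (hρV (hcb x hx hy)).2) (fun y hy => hMV y (hρV (hcb x hx hy)).1 τ hτ) v
  · exact integrable_const _
  · filter_upwards [hae] with τ hτ x hx
    exact hder τ hτ x (ball_subset_ball (by linarith) hx)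

end A

end Pool.Agent.Helper74.OKA
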